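import Mathlib

/-! Task 27 (MARG): counting tuples with a condition on some of the coordinates. -/

namespace RC852

/-- counting tuples with a condition on some of the coordinates -/
theorem MARG {ι κ A : Type*} [Fintype ι] [Fintype κ] [Fintype A] (e : ι ↪ κ)
    (P : (ι → A) → Prop) :
    Nat.card {y : κ → A // P fun i => y (e i)} * Fintype.card A ^ Fintype.card ι =
      Nat.card {u : ι → A // P u} * Fintype.card A ^ Fintype.card κ := by
  classical
  let c := {k : κ // k ∉ Set.range e}
  let σ : ι ⊕ c ≃ κ := (Equiv.sumCongr (Equiv.ofInjective e e.injective) (Equiv.refl _)).trans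
    (Equiv.Set.sumCompl (Set.range e))
  have hσ : ∀ i, σ (Sum.inl i) = e i := fun i => rfl
  let τ : (κ → A) ≃ (ι → A) × (c → A) :=
    (Equiv.arrowCongr σ.symm (Equiv.refl A)).trans (Equiv.sumArrowEquivProdArrow ι c A)
  have hτ : ∀ y i, (τ y).1 i = y (e i) := fun y i => rfl
  have h1 : Nat.card {y : κ → A // P fun i => y (e i)} =
      Nat.card {p : (ι → A) × (c → A) // P p.1} := by
    apply Nat.card_congr
    exact Equiv.subtypeEquiv τ (fun y => Iff.rfl)
  have h2 : Nat.card {p : (ι → A) × (c → A) // P p.1} =
      Nat.card ({u : ι → A // P u} × (c → A)) := by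
    apply Nat.card_congr
    exact {
      toFun := fun p => (⟨p.1.1, p.2⟩, p.1.2)
      invFun := fun p => ⟨(p.1.1, p.2), p.1.2⟩
      left_inv := fun p => rfl
      right_inv := fun p => rfl }
  have h3 : Nat.card (c → A) = Fintype.card A ^ Fintype.card c := by
    rw [Nat.card_eq_fintype_card, Fintype.card_fun]
  have h4 : Fintype.card κ = Fintype.card ι + Fintype.card c := by
    rw [← Fintype.card_sum]
    exact (Fintype.card_congr σ).symm
  rw [h1, h2, Nat.card_prod, h3, h4, pow_add]
  ring

end RC852
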